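import Pool.Agent.Y691.ND.FLDC

/-! Sine series on the unit cube: scalar product, convection term, Dirichlet form. -/

open Set Filter Topology MeasureTheory

set_option autoImplicit false

namespace Pool.Agent.Y691.ND
open Pool.Agent.Y5 Pool.Agent.Y5.D F

theorem fld_ip (V W : Fam) (_hV : OT V) (rV : Rap V) (hW : OT W) (rW : Rap W) :
    ip (fieldOf V) (fieldOf W) = pair V W := by
  unfold ip pair
  rw [fieldOf_eq, fieldOf_eq]
  rw [int_pair Real.continuous_sin Real.abs_sin_le_one (sum0 rV)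
    (ser_cont Real.continuous_sin Real.abs_sin_le_one (sum0 rW))
    (ser_bdd Real.abs_sin_le_one (sum0 rW))]
  refine tsum_congr (fun k => ?_)
  rw [coef_sin (sum0 rW) hW.odd]

/-- the coefficients of a derivative -/
noncomputable def dfam (i : Fin 3) (V : Fam) : Fam := fun k => (2 * Real.pi * (k i : ℝ)) • V k

theorem dfam_even (i : Fin 3) {V : Fam} (hV : OT V) (k : Z3) : dfam i V (-k) = dfam i V k := by
  unfold dfam
  rw [hV.odd]
  simp

theorem dfam_sum (i : Fin 3) {V : Fam} (rV : Rap V) : Summable (fun k => ‖dfam i V k‖) := by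
  refine Summable.of_nonneg_of_le (fun k => norm_nonneg _) (fun k => ?_)
    ((sum1 rV).mul_left (2 * Real.pi))
  unfold dfam
  rw [norm_smul, norm_mul, Real.norm_eq_abs, Real.norm_eq_abs, abs_of_pos Real.two_pi_pos]
  have := coord_le k i
  have hp := Real.two_pi_pos
  calc 2 * Real.pi * |(k i : ℝ)| * ‖V k‖ ≤ 2 * Real.pi * ‖vec k‖ * ‖V k‖ := by gcongr
    _ = _ := by ring

theorem fld_d (i : Fin 3) {V : Fam} (rV : Rap V) (y : E3) :
    fderiv ℝ (ser Real.sin V) y (EuclideanSpace.single i 1) = ser Real.cos (dfam i V) y := by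
  rw [ser_fderiv (sum0 rV) (sum1 rV)]
  unfold ser dfam
  refine tsum_congr (fun k => ?_)
  rw [smul_smul]
  congr 3
  rw [EuclideanSpace.inner_single_right]
  simp [vec_apply]

theorem fld_dir (V : Fam) (hV : OT V) (rV : Rap V) :
    dir (fieldOf V) = (2 * Real.pi) ^ 2 * ∑' k, ‖vec k‖ ^ 2 * ‖V k‖ ^ 2 := by
  unfold dir
  rw [fieldOf_eq]
  have h1 : ∀ y : E3, ∑ i : Fin 3, ‖fderiv ℝ (ser Real.sin V) y (EuclideanSpace.single i 1)‖ ^ 2
      = ∑ i : Fin 3, inner ℝ (ser Real.cos (dfam i V) y) (ser Real.cos (dfam i V) y) := by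
    intro y
    refine Finset.sum_congr rfl (fun i _ => ?_)
    rw [fld_d i rV, real_inner_self_eq_norm_sq]
  rw [integral_congr_ae (Eventually.of_forall h1), integral_finsetSum]
  · have h2 : ∀ i : Fin 3,
        ∫ y in cube, inner ℝ (ser Real.cos (dfam i V) y) (ser Real.cos (dfam i V) y) =
        ∑' k, (2 * Real.pi) ^ 2 * ((k i : ℝ) ^ 2 * ‖V k‖ ^ 2) := by
      intro i
      rw [int_pair Real.continuous_cos Real.abs_cos_le_one (dfam_sum i rV)
        (ser_cont Real.continuous_cos Real.abs_cos_le_one (dfam_sum i rV))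
        (ser_bdd Real.abs_cos_le_one (dfam_sum i rV))]
      refine tsum_congr (fun k => ?_)
      rw [coef_cos (dfam_sum i rV) (dfam_even i hV), real_inner_self_eq_norm_sq]
      unfold dfam
      rw [norm_smul, Real.norm_eq_abs, mul_pow, sq_abs]
      ring
    simp_rw [h2]
    have hs : ∀ i : Fin 3, Summable (fun k : Z3 => (2 * Real.pi) ^ 2 * ((k i : ℝ) ^ 2 * ‖V k‖ ^ 2)) := by
      intro i
      refine Summable.mul_left _ ?_
      refine Summable.of_nonneg_of_le (fun k => by positivity) (fun k => ?_) (sum2 rV)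
      have := coord_le k i
      rw [← sq_abs (k i : ℝ)]
      gcongr
    rw [← Summable.tsum_finsetSum (fun i _ => hs i), ← tsum_mul_left]
    refine tsum_congr (fun k => ?_)
    rw [← Finset.mul_sum, ← Finset.sum_mul]
    congr 2
    rw [EuclideanSpace.norm_sq_eq]
    refine Finset.sum_congr rfl (fun i _ => ?_)
    rw [vec_apply, Real.norm_eq_abs, sq_abs]
  · intro i _
    have hc := ser_cont Real.continuous_cos Real.abs_cos_le_one (dfam_sum i rV)
    have hb := ser_bdd Real.abs_cos_le_one (dfam_sum i rV)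
    refine int_of_cont (hc.inner hc) ⟨(∑' k, ‖dfam i V k‖) * (∑' k, ‖dfam i V k‖), fun y => ?_⟩
    refine (norm_inner_le_norm _ _).trans ?_
    exact mul_le_mul (hb y) (hb y) (norm_nonneg _) ((norm_nonneg _).trans (hb y))

theorem fld_inner (V W : Fam) (rV : Rap V) (hW : OT W) (rW : Rap W) (q : Z3) :
    ∫ y in cube, Real.cos (ph q y) * inner ℝ (vec q) (ser Real.sin V y) *
      inner ℝ (V q) (ser Real.sin W y) =
    ∑' p, inner ℝ (V p) (vec q) * (1 / 2 * inner ℝ (V q) (W (p - q) + W (p + q))) := by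
  set G : E3 → E3 := fun y => (Real.cos (ph q y) * inner ℝ (V q) (ser Real.sin W y)) • vec q with hG
  have hcW := ser_cont Real.continuous_sin Real.abs_sin_le_one (sum0 rW)
  have hbW := ser_bdd (V := W) Real.abs_sin_le_one (sum0 rW)
  have hGc : Continuous G :=
    ((Real.continuous_cos.comp (ph_cont q)).mul (continuous_const.inner hcW)).smul continuous_const
  have hGb : ∀ y, ‖G y‖ ≤ (1 * (‖V q‖ * ∑' k, ‖W k‖)) * ‖vec q‖ := by
    intro y
    rw [hG]
    simp only
    rw [norm_smul, norm_mul]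
    refine mul_le_mul_of_nonneg_right ?_ (norm_nonneg _)
    refine mul_le_mul ?_ ?_ (norm_nonneg _) zero_le_one
    · rw [Real.norm_eq_abs]; exact Real.abs_cos_le_one _
    · refine (norm_inner_le_norm _ _).trans ?_
      exact mul_le_mul_of_nonneg_left (hbW y) (norm_nonneg _)
  have h1 : ∀ y, Real.cos (ph q y) * inner ℝ (vec q) (ser Real.sin V y) *
      inner ℝ (V q) (ser Real.sin W y) = inner ℝ (ser Real.sin V y) (G y) := by
    intro y
    rw [hG]
    simp only
    rw [inner_smul_right, real_inner_comm (ser Real.sin V y) (vec q)]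
    ring
  rw [integral_congr_ae (Eventually.of_forall h1),
    int_pair Real.continuous_sin Real.abs_sin_le_one (sum0 rV) hGc hGb]
  refine tsum_congr (fun p => ?_)
  have h2 : ∀ y, Real.sin (ph p y) • G y =
      (inner ℝ (V q) ((Real.cos (ph q y) * Real.sin (ph p y)) • ser Real.sin W y)) • vec q := by
    intro y
    rw [hG]
    simp only
    rw [inner_smul_right, smul_smul]
    congr 1
    ring
  rw [integral_congr_ae (Eventually.of_forall h2), integral_smul_const, integral_inner,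
    coef_cs (sum0 rW) hW.odd, inner_smul_right, inner_smul_right]
  · ring
  · refine int_of_cont ((((Real.continuous_cos.comp (ph_cont q)).mul
      (Real.continuous_sin.comp (ph_cont p)))).smul hcW) ⟨∑' k, ‖W k‖, fun y => ?_⟩
    rw [norm_smul, Real.norm_eq_abs, abs_mul]
    refine (mul_le_of_le_one_left (norm_nonneg _) ?_).trans (hbW y)
    exact mul_le_one₀ (Real.abs_cos_le_one _) (abs_nonneg _) (Real.abs_sin_le_one _)

theorem fld_outer (V W : Fam) (rV : Rap V) (hW : OT W) (rW : Rap W) :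
    cnv (fieldOf V) (fieldOf W) = ∑' q, 2 * Real.pi *
      ∑' p, inner ℝ (V p) (vec q) * (1 / 2 * inner ℝ (V q) (W (p - q) + W (p + q))) := by
  unfold cnv
  rw [fieldOf_eq, fieldOf_eq]
  have hcV := ser_cont Real.continuous_sin Real.abs_sin_le_one (sum0 rV)
  have hbV := ser_bdd (V := V) Real.abs_sin_le_one (sum0 rV)
  have hcW := ser_cont Real.continuous_sin Real.abs_sin_le_one (sum0 rW)
  have hbW := ser_bdd (V := W) Real.abs_sin_le_one (sum0 rW)
  have h1 : ∀ y, inner ℝ (fderiv ℝ (ser Real.sin V) y (ser Real.sin V y)) (ser Real.sin W y) =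
      ∑' q, 2 * Real.pi * (Real.cos (ph q y) * inner ℝ (vec q) (ser Real.sin V y) *
        inner ℝ (V q) (ser Real.sin W y)) := by
    intro y
    rw [ser_fderiv (sum0 rV) (sum1 rV)]
    have hs : Summable (fun k => (Real.cos (ph k y) * (2 * Real.pi *
        inner ℝ (vec k) (ser Real.sin V y))) • V k) := by
      refine Summable.of_norm_bounded (((sum1 rV).mul_left (2 * Real.pi)).mul_left
        (∑' k, ‖V k‖)) (fun k => ?_)
      rw [norm_smul, norm_mul, norm_mul, Real.norm_eq_abs, Real.norm_eq_abs,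
        abs_of_pos Real.two_pi_pos]
      have h1 := Real.abs_cos_le_one (ph k y)
      have h2 : ‖inner ℝ (vec k) (ser Real.sin V y)‖ ≤ ‖vec k‖ * ∑' k, ‖V k‖ :=
        (norm_inner_le_norm _ _).trans (mul_le_mul_of_nonneg_left (hbV y) (norm_nonneg _))
      have hp := Real.two_pi_pos
      calc |Real.cos (ph k y)| * (2 * Real.pi * ‖inner ℝ (vec k) (ser Real.sin V y)‖) * ‖V k‖
          ≤ 1 * (2 * Real.pi * (‖vec k‖ * ∑' k, ‖V k‖)) * ‖V k‖ := by gcongr
        _ = _ := by ring
    have h2 := (hs.hasSum.mapL (innerSL ℝ (ser Real.sin W y))).tsum_eq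
    simp only [innerSL_apply_apply] at h2
    rw [real_inner_comm, ← h2]
    refine tsum_congr (fun k => ?_)
    rw [inner_smul_right, real_inner_comm (V k) (ser Real.sin W y)]
    ring
  rw [integral_congr_ae (Eventually.of_forall h1)]
  rw [int_tsum (u := fun q => 2 * Real.pi * ((∑' k, ‖V k‖) * (∑' k, ‖W k‖)) *
    (‖vec q‖ * ‖V q‖)) (fun q => ?_) ((sum1 rV).mul_left _) (fun q y => ?_)]
  · refine tsum_congr (fun q => ?_)
    rw [integral_const_mul, fld_inner V W rV hW rW]
  · exact continuous_const.mul (((Real.continuous_cos.comp (ph_cont q)).mul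
      (continuous_const.inner hcV)).mul (continuous_const.inner hcW))
  · rw [norm_mul, Real.norm_eq_abs (2 * Real.pi), abs_of_pos Real.two_pi_pos, norm_mul, norm_mul,
      Real.norm_eq_abs (Real.cos _)]
    have h1 := Real.abs_cos_le_one (ph q y)
    have h2 : ‖inner ℝ (vec q) (ser Real.sin V y)‖ ≤ ‖vec q‖ * ∑' k, ‖V k‖ :=
      (norm_inner_le_norm _ _).trans (mul_le_mul_of_nonneg_left (hbV y) (norm_nonneg _))
    have h3 : ‖inner ℝ (V q) (ser Real.sin W y)‖ ≤ ‖V q‖ * ∑' k, ‖W k‖ :=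
      (norm_inner_le_norm _ _).trans (mul_le_mul_of_nonneg_left (hbW y) (norm_nonneg _))
    have hp := Real.two_pi_pos
    have hVn : 0 ≤ ∑' k, ‖V k‖ := tsum_nonneg (fun k => norm_nonneg _)
    calc 2 * Real.pi * (|Real.cos (ph q y)| * ‖inner ℝ (vec q) (ser Real.sin V y)‖ *
          ‖inner ℝ (V q) (ser Real.sin W y)‖)
        ≤ 2 * Real.pi * (1 * (‖vec q‖ * ∑' k, ‖V k‖) * (‖V q‖ * ∑' k, ‖W k‖)) := by gcongr
      _ = _ := by ring

theorem rap_bdd {W : Fam} (rW : Rap W) : ∃ B, 0 ≤ B ∧ ∀ k, ‖W k‖ ≤ B := by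
  obtain ⟨M, hM⟩ := rW 0
  refine ⟨M, ?_, fun k => ?_⟩
  · exact le_trans (by positivity) (hM 0)
  · simpa using hM k

/-- absolute convergence of the double series -/
theorem two_sum (V W : Fam) (rV : Rap V) (rW : Rap W) (f : Z3 × Z3 → Z3) :
    Summable (fun x : Z3 × Z3 => inner ℝ (V x.2) (vec x.1) * inner ℝ (V x.1) (W (f x))) := by
  obtain ⟨B, hB0, hB⟩ := rap_bdd rW
  have h := ((sum1 rV).mul_of_nonneg (sum0 rV) (fun k => by positivity)
    (fun k => norm_nonneg _)).mul_left B
  refine Summable.of_norm_bounded h (fun x => ?_)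
  rw [norm_mul]
  calc ‖inner ℝ (V x.2) (vec x.1)‖ * ‖inner ℝ (V x.1) (W (f x))‖
      ≤ (‖V x.2‖ * ‖vec x.1‖) * (‖V x.1‖ * B) := by
        refine mul_le_mul (norm_inner_le_norm _ _) ?_ (norm_nonneg _) (by positivity)
        exact (norm_inner_le_norm _ _).trans (mul_le_mul_of_nonneg_left (hB _) (norm_nonneg _))
    _ = B * (‖vec x.1‖ * ‖V x.1‖ * ‖V x.2‖) := by ring

theorem fld_cnv (V W : Fam) (hV : OT V) (rV : Rap V) (hW : OT W) (rW : Rap W) :
    cnv (fieldOf V) (fieldOf W) = -bil V V W := by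
  rw [fld_outer V W rV hW rW]
  set f : Z3 × Z3 → ℝ := fun x => inner ℝ (V x.2) (vec x.1) * inner ℝ (V x.1) (W (x.2 - x.1)) with hf
  set g : Z3 × Z3 → ℝ := fun x => inner ℝ (V x.2) (vec x.1) * inner ℝ (V x.1) (W (x.2 + x.1)) with hg
  have hfs : Summable f := two_sum V W rV rW (fun x => x.2 - x.1)
  have hgs : Summable g := two_sum V W rV rW (fun x => x.2 + x.1)
  have h1 : ∑' q, 2 * Real.pi *
      ∑' p, inner ℝ (V p) (vec q) * (1 / 2 * inner ℝ (V q) (W (p - q) + W (p + q))) =
      Real.pi * ∑' x, (f x + g x) := by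
    rw [(hfs.add hgs).tsum_prod, ← tsum_mul_left]
    refine tsum_congr (fun q => ?_)
    rw [← tsum_mul_left, ← tsum_mul_left]
    refine tsum_congr (fun p => ?_)
    rw [hf, hg]
    simp only
    rw [inner_add_right]
    ring
  rw [h1, hfs.tsum_add hgs]
  have h2 : ∑' x, f x = ∑' x, g x := by
    rw [← ((Equiv.neg Z3).prodCongr (Equiv.refl Z3)).tsum_eq f]
    refine tsum_congr (fun x => ?_)
    rw [hf, hg]
    simp only [Equiv.prodCongr_apply, Equiv.neg_apply, Equiv.refl_apply, Prod.map]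
    rw [hV.odd, vec_neg, inner_neg_right, inner_neg_left, sub_neg_eq_add]
    ring
  rw [h2]
  unfold bil
  have h3 : ∑' q : Z3 × Z3, inner ℝ (V q.1) (vec q.2) * inner ℝ (V (q.2 - q.1)) (W q.2) =
      ∑' x, g x := by
    let e : Z3 × Z3 ≃ Z3 × Z3 :=
      { toFun := fun x => (x.2, x.2 + x.1)
        invFun := fun x => (x.2 - x.1, x.1)
        left_inv := fun x => by simp
        right_inv := fun x => by simp }
    rw [← e.tsum_eq (fun q : Z3 × Z3 => inner ℝ (V q.1) (vec q.2) * inner ℝ (V (q.2 - q.1)) (W q.2))]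
    refine tsum_congr (fun x => ?_)
    rw [hg]
    change inner ℝ (V x.2) (vec (x.2 + x.1)) * inner ℝ (V (x.2 + x.1 - x.2)) (W (x.2 + x.1)) = _
    rw [vec_add, inner_add_right, real_inner_comm (vec x.2) (V x.2), hV.tan, zero_add,
      add_sub_cancel_left]
  rw [h3]
  ring

theorem t_FLD : S_FLD := ⟨fld_ip, fld_cnv, fld_dir⟩

end Pool.Agent.Y691.ND
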