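import Pool.Agent.Y691.ND.FLDA

/-! Summability on `ℤ^3`. -/

open Set Filter Topology MeasureTheory

set_option autoImplicit false

namespace Pool.Agent.Y691.ND.F
open Pool.Agent.Y5 Pool.Agent.Y5.D

theorem sum_one : Summable (fun n : ℤ => (1 + |(n : ℝ)|)⁻¹ ^ 2) := by
  have h : Summable (fun n : ℤ => 1 / (n : ℝ) ^ 2) := Real.summable_one_div_int_pow.2 one_lt_two
  have h0 : Summable (fun n : ℤ => if n = 0 then (1 : ℝ) else 0) :=
    summable_of_hasFiniteSupport (by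
      refine (Set.finite_singleton (0 : ℤ)).subset ?_
      intro n hn
      simp only [Function.mem_support, ne_eq, ite_eq_right_iff, one_ne_zero, imp_false,
        not_not] at hn
      simp [hn])
  refine Summable.of_nonneg_of_le (fun n => by positivity) (fun n => ?_) (h.add h0)
  by_cases hn : n = 0
  · subst hn; simp
  · simp only [hn, if_false, add_zero]
    rw [inv_pow, one_div]
    have hn1 : (0 : ℝ) < (n : ℝ) ^ 2 := by positivity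
    apply inv_anti₀ hn1
    rw [← sq_abs (n : ℝ)]
    have := abs_nonneg (n : ℝ)
    nlinarith

theorem sum_three : Summable (fun k : Z3 => (1 + |(k 0 : ℝ)|)⁻¹ ^ 2 * ((1 + |(k 1 : ℝ)|)⁻¹ ^ 2 *
    (1 + |(k 2 : ℝ)|)⁻¹ ^ 2)) := by
  have h1 : Summable (fun p : ℤ × ℤ => (1 + |(p.1 : ℝ)|)⁻¹ ^ 2 * (1 + |(p.2 : ℝ)|)⁻¹ ^ 2) :=
    sum_one.mul_of_nonneg sum_one (fun n => by positivity) (fun n => by positivity)
  have h : Summable (fun p : ℤ × (ℤ × ℤ) => (1 + |(p.1 : ℝ)|)⁻¹ ^ 2 *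
      ((1 + |(p.2.1 : ℝ)|)⁻¹ ^ 2 * (1 + |(p.2.2 : ℝ)|)⁻¹ ^ 2)) :=
    sum_one.mul_of_nonneg h1 (fun n => by positivity) (fun n => by positivity)
  have hi : Function.Injective (fun k : Z3 => (k 0, k 1, k 2)) := by
    intro k l hkl
    simp only [Prod.mk.injEq] at hkl
    ext i
    fin_cases i
    · exact hkl.1
    · exact hkl.2.1
    · exact hkl.2.2
  have h2 := h.comp_injective (i := fun k : Z3 => (k 0, k 1, k 2)) hi
  simpa only [Function.comp_def] using h2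

theorem coord_le (k : Z3) (i : Fin 3) : |(k i : ℝ)| ≤ ‖vec k‖ := by
  have := PiLp.norm_apply_le (vec k) i
  simpa [vec_apply] using this

theorem sum_rap {G : Type} [NormedAddCommGroup G] {a : Z3 → G}
    (h : ∃ M, ∀ k, (1 + ‖vec k‖) ^ 6 * ‖a k‖ ≤ M) : Summable (fun k => ‖a k‖) := by
  obtain ⟨M, hM⟩ := h
  refine Summable.of_nonneg_of_le (fun k => norm_nonneg _) (fun k => ?_) (sum_three.mul_left M)
  have h0 := coord_le k 0
  have h1 := coord_le k 1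
  have h2 := coord_le k 2
  have h3 := hM k
  have hp : 0 < (1 + ‖vec k‖) ^ 6 := by positivity
  have h4 : ‖a k‖ ≤ M * ((1 + ‖vec k‖)⁻¹ ^ 6) := by
    rw [inv_pow, ← div_eq_mul_inv, le_div_iff₀ hp, mul_comm]; exact h3
  have hM0 : 0 ≤ M := le_trans (by positivity) h3
  refine h4.trans (mul_le_mul_of_nonneg_left ?_ hM0)
  have e : (1 + ‖vec k‖)⁻¹ ^ 6 = (1 + ‖vec k‖)⁻¹ ^ 2 * ((1 + ‖vec k‖)⁻¹ ^ 2 * (1 + ‖vec k‖)⁻¹ ^ 2) := by
    ring
  rw [e]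
  gcongr

theorem rap_all {V : Fam} (hV : Rap V) (n : ℕ) : ∃ M, ∀ k, (1 + ‖vec k‖) ^ n * ‖V k‖ ≤ M := by
  obtain ⟨M0, h0⟩ := hV 0
  obtain ⟨Mn, hn⟩ := hV n
  refine ⟨2 ^ n * (M0 + Mn), fun k => ?_⟩
  have h1 : (1 + ‖vec k‖) ^ n ≤ 2 ^ n * (1 + ‖vec k‖ ^ n) := by
    rcases le_total ‖vec k‖ 1 with h | h
    · calc (1 + ‖vec k‖) ^ n ≤ 2 ^ n := by
            gcongr; linarith
        _ ≤ 2 ^ n * (1 + ‖vec k‖ ^ n) := le_mul_of_one_le_right (by positivity) (by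
            have : 0 ≤ ‖vec k‖ ^ n := by positivity
            linarith)
    · calc (1 + ‖vec k‖) ^ n ≤ (2 * ‖vec k‖) ^ n := by
            gcongr; linarith
        _ = 2 ^ n * ‖vec k‖ ^ n := mul_pow _ _ _
        _ ≤ 2 ^ n * (1 + ‖vec k‖ ^ n) := by gcongr; linarith
  calc (1 + ‖vec k‖) ^ n * ‖V k‖ ≤ 2 ^ n * (1 + ‖vec k‖ ^ n) * ‖V k‖ := by gcongr
    _ = 2 ^ n * (‖vec k‖ ^ 0 * ‖V k‖ + ‖vec k‖ ^ n * ‖V k‖) := by ring
    _ ≤ 2 ^ n * (M0 + Mn) := by gcongr <;> [exact h0 k; exact hn k]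

theorem sum0 {V : Fam} (hV : Rap V) : Summable (fun k => ‖V k‖) := sum_rap (rap_all hV 6)

theorem sum1 {V : Fam} (hV : Rap V) : Summable (fun k => ‖vec k‖ * ‖V k‖) := by
  have : Summable (fun k => ‖(‖vec k‖ * ‖V k‖ : ℝ)‖) := by
    apply sum_rap
    obtain ⟨M, hM⟩ := rap_all hV 7
    refine ⟨M, fun k => le_trans ?_ (hM k)⟩
    rw [norm_mul, norm_norm, norm_norm]
    have : ‖vec k‖ ≤ 1 + ‖vec k‖ := by linarith
    calc (1 + ‖vec k‖) ^ 6 * (‖vec k‖ * ‖V k‖) ≤ (1 + ‖vec k‖) ^ 6 * ((1 + ‖vec k‖) * ‖V k‖) := by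
          gcongr
      _ = _ := by ring
  simpa using this

theorem sum2 {V : Fam} (hV : Rap V) : Summable (fun k => ‖vec k‖ ^ 2 * ‖V k‖ ^ 2) := by
  obtain ⟨M, hM⟩ := hV 1
  refine Summable.of_nonneg_of_le (fun k => by positivity) (fun k => ?_) ((sum1 hV).mul_left M)
  have := hM k
  rw [pow_one] at this
  calc ‖vec k‖ ^ 2 * ‖V k‖ ^ 2 = (‖vec k‖ * ‖V k‖) * (‖vec k‖ * ‖V k‖) := by ring
    _ ≤ M * (‖vec k‖ * ‖V k‖) := by gcongr

end Pool.Agent.Y691.ND.F
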