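import Pool.Agent.Y5.D.Stm

/-! Job 576 (helper691 for helper5): the choice of the scales. All quantities are powers of 20, up to
constants. -/

open Real

set_option autoImplicit false

namespace Pool.Agent.Y691.ND

open Pool.Agent.Y5.D

def bb (A : ℕ) : ℕ → ℕ
  | 0 => 2 * A
  | n + 1 => 6 * bb A n / 5

def ee (A : ℕ) : ℕ → ℕ
  | 0 => A
  | n + 1 => 5 * (bb A (n + 1) - bb A n)

theorem bb_hi (A n : ℕ) : 5 * bb A (n + 1) ≤ 6 * bb A n := by simp only [bb]; omega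

theorem bb_lo (A n : ℕ) : 6 * bb A n ≤ 5 * bb A (n + 1) + 4 := by simp only [bb]; omega

theorem bb_ge {A : ℕ} (hA : 300 ≤ A) (n : ℕ) : 2 * A + 100 * n ≤ bb A n := by
  induction n with
  | zero => simp [bb]
  | succ n ih => have := bb_lo A n; omega

theorem bb_mono {A : ℕ} (hA : 300 ≤ A) (n : ℕ) : bb A n + 20 * n + A / 3 ≤ bb A (n + 1) := by
  have := bb_lo A n
  have := bb_ge hA n
  omega

theorem ee_ge {A : ℕ} (hA : 300 ≤ A) (n : ℕ) : A ≤ ee A n := by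
  cases n with
  | zero => simp [ee]
  | succ n => simp only [ee]; have := bb_lo A n; have := bb_ge hA n; omega

theorem bb_le_ee {A : ℕ} (hA : 300 ≤ A) (n : ℕ) : bb A n ≤ 2 * ee A n := by
  cases n with
  | zero => simp [ee, bb]
  | succ n =>
    have h1 := bb_lo A n; have h2 := bb_ge hA n; have h3 := bb_hi A n
    simp only [ee]; omega

theorem ee_grow {A : ℕ} (hA : 300 ≤ A) (n : ℕ) : ee A n + (n + 2) ≤ ee A (n + 1) := by
  cases n with
  | zero =>
    have h1 : 6 * bb A 0 ≤ 5 * bb A 1 + 4 := bb_lo A 0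
    have h2 : bb A 0 = 2 * A := rfl
    have h3 : ee A 0 = A := rfl
    have h4 : ee A 1 = 5 * (bb A 1 - bb A 0) := rfl
    show ee A 0 + (0 + 2) ≤ ee A 1
    rw [h3, h4]; omega
  | succ n =>
    have h1 := bb_lo A n; have h2 := bb_ge hA n; have h3 := bb_hi A n
    have h5 := bb_lo A (n + 1); have h6 := bb_ge hA (n + 1)
    have h7 : ee A (n + 1) = 5 * (bb A (n + 1) - bb A n) := rfl
    have h8 : ee A (n + 1 + 1) = 5 * (bb A (n + 1 + 1) - bb A (n + 1)) := rfl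
    rw [h7, h8]; omega

theorem p20 {x y : ℕ} (h : x ≤ y) : (20 : ℝ) ^ x ≤ 20 ^ y := pow_le_pow_right₀ (by norm_num) h

theorem exists_pow20 (x : ℝ) : ∃ m : ℕ, x ≤ 20 ^ m := by
  obtain ⟨m, hm⟩ := pow_unbounded_of_one_lt x (show (1 : ℝ) < 20 by norm_num)
  exact ⟨m, hm.le⟩

/-- the key inequality -/
theorem key_exp0 {m e : ℕ} (he : m + 24 ≤ e) :
    ((m + 1 : ℕ) : ℝ) * e * 10 ^ 16 ≤ 20 ^ e := by
  have h1 : (e : ℝ) ≤ 2 ^ e := by exact_mod_cast (Nat.lt_two_pow_self (n := e)).le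
  have h2 : ((m + 1 : ℕ) : ℝ) ≤ 10 ^ (m + 1) := by
    exact_mod_cast (Nat.lt_pow_self (by norm_num : 1 < 10)).le
  have h3 : (10 : ℝ) ^ (m + 1) * 10 ^ 16 ≤ 10 ^ e := by
    rw [← pow_add]; exact pow_le_pow_right₀ (by norm_num) (by omega)
  calc ((m + 1 : ℕ) : ℝ) * e * 10 ^ 16 = (((m + 1 : ℕ) : ℝ) * 10 ^ 16) * e := by ring
    _ ≤ (10 ^ (m + 1) * 10 ^ 16) * 2 ^ e := by gcongr
    _ ≤ 10 ^ e * 2 ^ e := by gcongr
    _ = 20 ^ e := by rw [← mul_pow]; norm_num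

theorem key_exp {m e : ℕ} (he : m + 24 ≤ e) {E : ℝ} (hE : E = 20 ^ e) :
    ((m : ℝ) * e) * 10 ^ 16 + (e : ℝ) * 10 ^ 16 ≤ E := by
  have h := key_exp0 he
  rw [← hE] at h
  push_cast at h
  calc ((m : ℝ) * e) * 10 ^ 16 + (e : ℝ) * 10 ^ 16 = (m + 1) * e * 10 ^ 16 := by ring
    _ ≤ E := h

theorem lin_le (n : ℕ) : (100 : ℝ) * (n + 1) ≤ 20 ^ (n + 2) := by
  have h3 : ((n : ℝ) + 1) ≤ 20 ^ n := by
    have : n + 1 ≤ 20 ^ n := Nat.lt_pow_self (n := n) (by norm_num : 1 < 20)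
    exact_mod_cast this
  have h4 : (20 : ℝ) ^ (n + 2) = 400 * 20 ^ n := by rw [pow_add]; ring
  rw [h4]
  have h5 : (0 : ℝ) < 20 ^ n := by positivity
  linarith

theorem pow20_le_exp (k : ℕ) : (20 : ℝ) ^ k ≤ Real.exp (3 * k) := by
  have h : (20 : ℝ) ≤ Real.exp 3 := by
    have h1 := Real.exp_one_gt_d9
    have h2 : Real.exp 3 = Real.exp 1 ^ 3 := by
      rw [← Real.exp_nat_mul]; norm_num
    rw [h2]
    calc (20 : ℝ) ≤ 2.718 ^ 3 := by norm_num
      _ ≤ Real.exp 1 ^ 3 := by gcongr; linarith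
  calc (20 : ℝ) ^ k ≤ (Real.exp 3) ^ k := by gcongr
    _ = Real.exp (3 * k) := by rw [← Real.exp_nat_mul]; ring_nf

theorem t_SEQ : S_SEQ := by
  intro ν β D p K₁ hν hβ hD hK₁
  obtain ⟨m1, hm1⟩ := exists_pow20 β
  obtain ⟨m2, hm2⟩ := exists_pow20 (1 / β)
  obtain ⟨m3, hm3⟩ := exists_pow20 D
  obtain ⟨m4, hm4⟩ := exists_pow20 (1 / D)
  set c : ℝ := 2 * (ν * ((2 * Real.pi) ^ 2 * 2)) with hc
  have hc0 : 0 < c := by positivity
  obtain ⟨m5, hm5⟩ := exists_pow20 c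
  obtain ⟨m6, hm6⟩ := exists_pow20 (1 / c)
  obtain ⟨m7, hm7⟩ := exists_pow20 (K₁ : ℝ)
  set m := m1 + m2 + m3 + m4 + m5 + m6 + m7 + p with hm
  have b1 : β ≤ 20 ^ m := hm1.trans (p20 (by omega))
  have b2 : 1 ≤ β * 20 ^ m := by
    have := hm2.trans (p20 (show m2 ≤ m by omega))
    rw [div_le_iff₀ hβ] at this; linarith
  have b3 : D ≤ 20 ^ m := hm3.trans (p20 (by omega))
  have b4 : 1 ≤ D * 20 ^ m := by
    have := hm4.trans (p20 (show m4 ≤ m by omega))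
    rw [div_le_iff₀ hD] at this; linarith
  have b5 : c ≤ 20 ^ m := hm5.trans (p20 (by omega))
  have b6 : 1 ≤ c * 20 ^ m := by
    have := hm6.trans (p20 (show m6 ≤ m by omega))
    rw [div_le_iff₀ hc0] at this; linarith
  have b7 : (K₁ : ℝ) ≤ 20 ^ m := hm7.trans (p20 (by omega))
  have hpm : p ≤ m := by omega
  clear_value m
  set A : ℕ := 300 * (m + 1) with hA
  have hA3 : 300 ≤ A := by omega
  have hAm : 300 * m ≤ A := by omega
  set s : ℕ → ℝ := fun n => (20 : ℝ) ^ bb A n with hs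
  have hs0 : ∀ n, 0 < s n := fun n => by positivity
  have hK : ∀ n, (((20 ^ bb A n) ^ 2 : ℕ) : ℝ) = s n ^ 2 := fun n => by simp [hs]
  have hsq : ∀ n, √(((20 ^ bb A n) ^ 2 : ℕ) : ℝ) = s n := fun n => by
    rw [hK, Real.sqrt_sq (hs0 n).le]
  have s2 : ∀ n, s n ^ 2 = 20 ^ (2 * bb A n) := fun n => by
    simp only [hs]; rw [← pow_mul, mul_comm]
  have s3 : ∀ n, s n ^ 2 * s n = 20 ^ (3 * bb A n) := fun n => by
    rw [s2]; simp only [hs]; rw [← pow_add]; congr 1; ring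
  have s4 : ∀ n, (s n ^ 2) ^ 2 = 20 ^ (4 * bb A n) := fun n => by
    rw [s2, ← pow_mul]; congr 1; ring
  have s5 : ∀ n, (s n ^ 2) ^ 2 * s n = 20 ^ (5 * bb A n) := fun n => by
    rw [s4]; simp only [hs]; rw [← pow_add]; congr 1; ring
  have s6 : ∀ n, (s n ^ 2) ^ 3 = 20 ^ (6 * bb A n) := fun n => by
    rw [s2, ← pow_mul]; congr 1; ring
  have hlmpos : ∀ n, (0 : ℝ) < 20 ^ ee A n := fun n => by positivity
  have hbge := bb_ge hA3
  have hbm := bb_mono hA3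
  have hee := ee_ge hA3
  -- K (n+1)^p is small
  have hKp : ∀ n, (s (n + 1) ^ 2) ^ p ≤ Real.exp (20 ^ ee A n / 10 ^ 4) := by
    intro n
    have e1 : (s (n + 1) ^ 2) ^ p = 20 ^ (bb A (n + 1) * 2 * p) := by
      rw [s2, ← pow_mul]; congr 1; ring
    rw [e1]
    refine (pow20_le_exp _).trans (Real.exp_le_exp.mpr ?_)
    have h1 := bb_le_ee hA3 n
    have h2 := bb_hi A n
    have h3 : bb A (n + 1) * 2 * p ≤ 6 * m * ee A n := by
      calc bb A (n + 1) * 2 * p ≤ (3 * ee A n) * 2 * m := by gcongr; omega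
        _ = 6 * m * ee A n := by ring
    have h4 : ((bb A (n + 1) * 2 * p : ℕ) : ℝ) ≤ 6 * m * ee A n := by exact_mod_cast h3
    obtain ⟨E, hE⟩ : ∃ E : ℝ, E = 20 ^ ee A n := ⟨_, rfl⟩
    have h5 := key_exp (m := m) (e := ee A n) (by have := hee n; omega) hE
    have h6 : (0 : ℝ) ≤ ee A n := Nat.cast_nonneg _
    have h7 : (0 : ℝ) ≤ (m : ℝ) * ee A n := by positivity
    rw [← hE, le_div_iff₀ (by positivity)]
    generalize ((bb A (n + 1) * 2 * p : ℕ) : ℝ) = Y at h4 ⊢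
    generalize ((ee A n : ℕ) : ℝ) = e at h4 h5 h6 h7
    have h8 : (6 : ℝ) * m * e = 6 * (m * e) := by ring
    rw [h8] at h4
    generalize (m : ℝ) * e = X at h4 h5 h7
    linarith
  refine ⟨fun n => (20 ^ bb A n) ^ 2, fun n => Real.exp (-(20 ^ ee A n / 50)),
    fun n => 20 ^ ee A n, fun n => c * (s n ^ 2) ^ 2, ?_, ?_, ?_, ?_, ?_, ?_, ?_, ?_, ?_, ?_, ?_, ?_⟩
  · -- K₁ ≤ K 0
    have h : (K₁ : ℝ) ≤ ((20 ^ bb A 0) ^ 2 : ℕ) := by
      rw [hK, s2]
      exact b7.trans (p20 (by have := hbge 0; omega))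
    exact_mod_cast h
  · -- 10^6
    have h : (10 ^ 6 : ℕ) ≤ 20 ^ 6 := by norm_num
    refine h.trans ?_
    have h2 : (20 ^ bb A 0) ^ 2 = 20 ^ (bb A 0 * 2) := by rw [← pow_mul]
    refine le_trans (Nat.pow_le_pow_right (by norm_num) ?_) h2.ge
    have := hbge 0; omega
  · intro n
    have h : (K₁ : ℝ) * ((20 ^ bb A n) ^ 2 : ℕ) ≤ ((20 ^ bb A (n + 1)) ^ 2 : ℕ) := by
      rw [hK, hK, s2, s2]
      calc (K₁ : ℝ) * 20 ^ (2 * bb A n) ≤ 20 ^ m * 20 ^ (2 * bb A n) := by gcongr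
        _ ≤ _ := by rw [← pow_add]; exact p20 (by have := hbm n; omega)
    exact_mod_cast h
  · intro n
    show 1000 * (20 ^ bb A n) ^ 2 ≤ (20 ^ bb A (n + 1)) ^ 2
    calc 1000 * (20 ^ bb A n) ^ 2 ≤ 20 ^ 3 * (20 ^ bb A n) ^ 2 := by gcongr; norm_num
      _ = 20 ^ (3 + bb A n * 2) := by rw [pow_add, pow_mul]
      _ ≤ 20 ^ (bb A (n + 1) * 2) :=
        Nat.pow_le_pow_right (by norm_num) (by have := hbm n; omega)
      _ = _ := by rw [pow_mul]
  · intro n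
    show 20 ∣ (20 ^ bb A n) ^ 2
    exact dvd_pow (dvd_pow_self 20 (by have := hbge n; omega)) (by norm_num)
  · intro n
    refine ⟨Real.exp_pos _, ?_⟩
    rw [hK]
    calc Real.exp (-(20 ^ ee A n / 50)) * (s (n + 1) ^ 2) ^ p
        ≤ Real.exp (-(20 ^ ee A n / 50)) * Real.exp (20 ^ ee A n / 10 ^ 4) := by
          gcongr; exact hKp n
      _ = Real.exp (-(20 ^ ee A n / 50) + 20 ^ ee A n / 10 ^ 4) := by rw [← Real.exp_add]
      _ ≤ 1 := by
        rw [Real.exp_le_one_iff]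
        have := hlmpos n
        linarith
  · intro n
    rw [hK, hc]
    apply le_of_eq; ring
  · rw [hsq, hK]
    have h : (20 : ℝ) ^ m ≤ s 0 ^ 2 * s 0 := by
      rw [s3]; exact p20 (by have := hbge 0; omega)
    calc (1 : ℝ) ≤ D * 20 ^ m := b4
      _ ≤ _ := by gcongr
  · intro n
    rw [hsq, hK, hsq, hK]
    have h : 10 ^ 6 * (1000 / 8 : ℝ) ^ (n + 1) * (s n ^ 2 * s n) ≤ s (n + 1) ^ 2 * s (n + 1) := by
      calc 10 ^ 6 * (1000 / 8 : ℝ) ^ (n + 1) * (s n ^ 2 * s n)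
          ≤ 20 ^ 5 * (20 ^ 2) ^ (n + 1) * (s n ^ 2 * s n) := by
            have := hs0 n
            gcongr <;> norm_num
        _ = 20 ^ (5 + 2 * (n + 1) + 3 * bb A n) := by
            rw [s3, ← pow_mul, ← pow_add, ← pow_add]
        _ ≤ 20 ^ (3 * bb A (n + 1)) := p20 (by have := hbm n; omega)
        _ = s (n + 1) ^ 2 * s (n + 1) := (s3 _).symm
    calc 10 ^ 6 * (1000 / 8 : ℝ) ^ (n + 1) * (D * (s n ^ 2 * s n))
        = D * (10 ^ 6 * (1000 / 8 : ℝ) ^ (n + 1) * (s n ^ 2 * s n)) := by ring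
      _ ≤ _ := by gcongr
  · intro n
    rw [hsq, hK, hK]
    calc D * (s n ^ 2 * s n) ≤ 20 ^ m * (s n ^ 2 * s n) := by
          have := hs0 n; gcongr
      _ = 20 ^ (m + 3 * bb A n) := by rw [s3, pow_add]
      _ ≤ 20 ^ (6 * bb A (n + 1)) := p20 (by have := hbm n; have := hbge n; omega)
      _ = (s (n + 1) ^ 2) ^ 3 := (s6 _).symm
      _ ≤ 10 ^ 4 * (s (n + 1) ^ 2) ^ 3 := by
          have := hs0 (n + 1)
          have h : 0 < (s (n + 1) ^ 2) ^ 3 := by positivity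
          linarith
  · intro n
    rw [hsq, hK]
    rw [le_div_iff₀ (by norm_num)]
    calc β * ((s n ^ 2) ^ 2 * s n) * 1000 ≤ 20 ^ m * ((s n ^ 2) ^ 2 * s n) * 20 ^ 3 := by
          have := hs0 n
          gcongr; norm_num
      _ = 20 ^ (m + 5 * bb A n + 3) := by rw [s5, pow_add, pow_add]
      _ ≤ 20 ^ (6 * bb A n) := p20 (by have := hbge n; omega)
      _ = (s n ^ 2) ^ 3 := (s6 _).symm
  · intro C B hC1 hC2 hB1 hB2
    simp only [hK] at hC1 hC2
    simp only [hsq]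
    simp only [hK, s5, s6]
    simp only [s4]
    constructor
    · -- L0
      calc (1 : ℝ) ≤ β * 20 ^ m := b2
        _ ≤ β * 20 ^ (5 * bb A 0) :=
          mul_le_mul_of_nonneg_left (p20 (by have := hbge 0; omega)) hβ.le
    · -- lm_succ
      intro n
      have h : ee A (n + 1) + 5 * bb A n = 5 * bb A (n + 1) := by
        have := hbm n; simp only [ee]; omega
      rw [← h, pow_add]; ring
    · -- lm_big
      intro n
      calc (10 : ℝ) ^ 30 ≤ 20 ^ 24 := by norm_num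
        _ ≤ _ := p20 (by have := hee n; omega)
    · -- lm_grow
      intro n
      have h1 := lin_le n
      calc (100 : ℝ) * (n + 1) * 20 ^ ee A n ≤ 20 ^ (n + 2) * 20 ^ ee A n := by gcongr
        _ ≤ _ := by rw [← pow_add]; exact p20 (by have := ee_grow hA3 n; omega)
    · -- M_one
      intro n
      have h : (1 : ℝ) ≤ 20 ^ (6 * bb A (n + 1)) := one_le_pow₀ (by norm_num)
      linarith
    · intro n
      gcongr 10 ^ 4 * ?_
      exact p20 (by have := hbm (n + 1); omega)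
    · -- M_le
      intro n
      have h1 : (10 : ℝ) ^ 4 * 20 ^ (6 * bb A (n + 1 + 1)) ≤ 20 ^ (4 + 6 * bb A (n + 1 + 1)) := by
        rw [pow_add]; gcongr; norm_num
      have h2 : (20 : ℝ) ^ (4 + 6 * bb A (n + 1 + 1)) * 20 ^ (4 * m) ≤ 20 ^ (20 * bb A n) := by
        rw [← pow_add]
        exact p20 (by have := bb_hi A n; have := bb_hi A (n + 1); have := hbge n; omega)
      have h3 : (1 : ℝ) ≤ β ^ 4 * 20 ^ (4 * m) := by
        have : (1 : ℝ) ≤ (β * 20 ^ m) ^ 4 := one_le_pow₀ b2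
        calc (1 : ℝ) ≤ (β * 20 ^ m) ^ 4 := this
          _ = _ := by rw [mul_pow, ← pow_mul]; congr 2; ring
      have h4 : (β * 20 ^ (5 * bb A n)) ^ 4 = β ^ 4 * 20 ^ (20 * bb A n) := by
        rw [mul_pow, ← pow_mul]; congr 2; ring
      rw [h4]
      have h5 : (0 : ℝ) < β ^ 4 := by positivity
      calc (10 : ℝ) ^ 4 * 20 ^ (6 * bb A (n + 1 + 1)) ≤ 20 ^ (4 + 6 * bb A (n + 1 + 1)) * 1 := by
            rw [mul_one]; exact h1
        _ ≤ 20 ^ (4 + 6 * bb A (n + 1 + 1)) * (β ^ 4 * 20 ^ (4 * m)) := by gcongr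
        _ = β ^ 4 * (20 ^ (4 + 6 * bb A (n + 1 + 1)) * 20 ^ (4 * m)) := by ring
        _ ≤ _ := by gcongr
    · -- exp_big
      intro n
      have hb6 : bb A (n + 5 + 1) ≤ 3 * bb A n := by
        have := bb_hi A n; have := bb_hi A (n + 1); have := bb_hi A (n + 2)
        have := bb_hi A (n + 3); have := bb_hi A (n + 4); have := bb_hi A (n + 5)
        simp only [add_assoc, Nat.reduceAdd] at *
        omega
      have hb5 : bb A (n + 5) ≤ bb A (n + 5 + 1) := by have := hbm (n + 5); omega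
      have h0 := bb_le_ee hA3 n
      have h00 := hee n
      have h1 : β * 20 ^ (5 * bb A (n + 5)) * (10 ^ 4 * 20 ^ (6 * bb A (n + 5 + 1)))
          ≤ 20 ^ (70 * ee A n) := by
        calc β * 20 ^ (5 * bb A (n + 5)) * (10 ^ 4 * 20 ^ (6 * bb A (n + 5 + 1)))
            ≤ 20 ^ m * 20 ^ (5 * bb A (n + 5)) * (20 ^ 4 * 20 ^ (6 * bb A (n + 5 + 1))) := by
              gcongr; norm_num
          _ = 20 ^ (m + 5 * bb A (n + 5) + (4 + 6 * bb A (n + 5 + 1))) := by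
              rw [pow_add, pow_add, pow_add]
          _ ≤ _ := p20 (by omega)
      calc (β * 20 ^ (5 * bb A (n + 5)) * (10 ^ 4 * 20 ^ (6 * bb A (n + 5 + 1)))) ^ 10
          ≤ (20 ^ (70 * ee A n)) ^ 10 := by gcongr
        _ = 20 ^ (700 * ee A n) := by rw [← pow_mul]; congr 1; ring
        _ ≤ Real.exp (3 * (700 * ee A n : ℕ)) := pow20_le_exp _
        _ ≤ Real.exp (20 ^ ee A n / 10 ^ 6) := by
            apply Real.exp_le_exp.mpr
            rw [le_div_iff₀ (by positivity)]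
            obtain ⟨E, hE⟩ : ∃ E : ℝ, E = 20 ^ ee A n := ⟨_, rfl⟩
            have h5 := key_exp (m := 0) (e := ee A n) (by omega) hE
            have h6 : (0 : ℝ) ≤ ee A n := Nat.cast_nonneg _
            rw [← hE]
            push_cast at h5 ⊢
            generalize ((ee A n : ℕ) : ℝ) = e at h5 h6 ⊢
            linarith
    · -- C_lo
      intro n
      have h1 := hC1 n
      have h2 := hKp n
      have h3 : 0 < (s (n + 1) ^ 2) ^ p := by have := hs0 (n + 1); positivity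
      have h4 : Real.exp (-(201 / 10000 * 20 ^ ee A n)) * (s (n + 1) ^ 2) ^ p
          ≤ Real.exp (-(20 ^ ee A n / 50)) := by
        calc Real.exp (-(201 / 10000 * 20 ^ ee A n)) * (s (n + 1) ^ 2) ^ p
            ≤ Real.exp (-(201 / 10000 * 20 ^ ee A n)) * Real.exp (20 ^ ee A n / 10 ^ 4) := by
              gcongr
          _ = Real.exp (-(20 ^ ee A n / 50)) := by
              rw [← Real.exp_add]; congr 1; ring
      exact le_of_mul_le_mul_right (h4.trans h1) h3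
    · -- C_hi
      intro n
      have h1 := hC2 n
      have h2 := hKp n
      calc C n ≤ Real.exp (-(20 ^ ee A n / 50)) * (s (n + 1) ^ 2) ^ p := h1
        _ ≤ Real.exp (-(20 ^ ee A n / 50)) * Real.exp (20 ^ ee A n / 10 ^ 4) := by gcongr
        _ = Real.exp (-(199 / 10000 * 20 ^ ee A n)) := by
            rw [← Real.exp_add]; congr 1; ring
    · exact hB1
    · exact hB2
    · intro n; positivity
    · -- ℓ_zero
      have h : (20 : ℝ) ^ 5 * (20 ^ m * 20 ^ (4 * bb A 0) * 20 ^ ee A 0) * 20 ^ m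
          ≤ 20 ^ (5 * bb A 0) := by
        simp only [← pow_add]
        have h2 : bb A 0 = 2 * A := rfl
        have h3 : ee A 0 = A := rfl
        exact p20 (by omega)
      calc (10 : ℝ) ^ 6 * (c * 20 ^ (4 * bb A 0) * 20 ^ ee A 0)
          ≤ 20 ^ 5 * (20 ^ m * 20 ^ (4 * bb A 0) * 20 ^ ee A 0) * 1 := by
            rw [mul_one]; gcongr; norm_num
        _ ≤ 20 ^ 5 * (20 ^ m * 20 ^ (4 * bb A 0) * 20 ^ ee A 0) * (β * 20 ^ m) := by gcongr
        _ = β * (20 ^ 5 * (20 ^ m * 20 ^ (4 * bb A 0) * 20 ^ ee A 0) * 20 ^ m) := by ring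
        _ ≤ _ := by gcongr
    · -- ℓ_succ
      intro n
      have h9 : (1 : ℝ) ≤ (9 / 1000) ^ n * (20 ^ 2) ^ n := by
        rw [← mul_pow]; exact one_le_pow₀ (by norm_num)
      have h : (20 : ℝ) ^ 5 * (20 ^ m * 20 ^ (4 * bb A (n + 1))) * (20 ^ m * (20 ^ 2) ^ n)
          ≤ 20 ^ (5 * bb A n) := by
        rw [← pow_mul]
        simp only [← pow_add]
        exact p20 (by have := bb_hi A n; have := hbge n; omega)
      calc (10 : ℝ) ^ 6 * (c * 20 ^ (4 * bb A (n + 1)))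
          ≤ 20 ^ 5 * (20 ^ m * 20 ^ (4 * bb A (n + 1))) * (1 * 1) := by
            rw [mul_one, mul_one]; gcongr; norm_num
        _ ≤ 20 ^ 5 * (20 ^ m * 20 ^ (4 * bb A (n + 1))) *
            ((β * 20 ^ m) * ((9 / 1000) ^ n * (20 ^ 2) ^ n)) := by gcongr
        _ = β * (20 ^ 5 * (20 ^ m * 20 ^ (4 * bb A (n + 1))) * (20 ^ m * (20 ^ 2) ^ n)) *
            (9 / 1000) ^ n := by ring
        _ ≤ _ := by gcongr
    · -- ℓ_slave
      intro n
      have h : (20 : ℝ) * (20 ^ m * 20 ^ (5 * bb A n)) * 20 ^ m ≤ 20 ^ (4 * bb A (n + 2)) := by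
        calc (20 : ℝ) * (20 ^ m * 20 ^ (5 * bb A n)) * 20 ^ m
            = 20 ^ (1 + m + 5 * bb A n + m) := by rw [pow_add, pow_add, pow_add]; ring
          _ ≤ _ := p20 (by
            have := bb_lo A n; have := bb_lo A (n + 1); have := hbge n
            simp only [add_assoc, Nat.reduceAdd] at *
            omega)
      calc (10 : ℝ) * (β * 20 ^ (5 * bb A n)) ≤ 20 * (20 ^ m * 20 ^ (5 * bb A n)) * 1 := by
            rw [mul_one]; gcongr; norm_num
        _ ≤ 20 * (20 ^ m * 20 ^ (5 * bb A n)) * (c * 20 ^ m) := by gcongr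
        _ = c * (20 * (20 ^ m * 20 ^ (5 * bb A n)) * 20 ^ m) := by ring
        _ ≤ _ := by gcongr

end Pool.Agent.Y691.ND
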