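import Pool.Agent.Y5.D.Stm

/-! Integrals of trigonometric functions over the unit cube; summability on `ℤ^3`. -/

open Set Filter Topology MeasureTheory

set_option autoImplicit false

namespace Pool.Agent.Y691.ND.F
open Pool.Agent.Y5 Pool.Agent.Y5.D

/-- phase -/
noncomputable def ph (k : Z3) (y : E3) : ℝ := 2 * Real.pi * inner ℝ (vec k) y

theorem vec_apply (k : Z3) (i : Fin 3) : vec k i = (k i : ℝ) := rfl

theorem vec_add (k l : Z3) : vec (k + l) = vec k + vec l := by
  ext i; simp [vec_apply]

theorem vec_sub (k l : Z3) : vec (k - l) = vec k - vec l := by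
  ext i; simp [vec_apply]

theorem vec_neg (k : Z3) : vec (-k) = -vec k := by
  ext i; simp [vec_apply]

theorem ph_add (k l : Z3) (y : E3) : ph (k + l) y = ph k y + ph l y := by
  simp only [ph, vec_add, inner_add_left]; ring

theorem ph_sub (k l : Z3) (y : E3) : ph (k - l) y = ph k y - ph l y := by
  simp only [ph, vec_sub, inner_sub_left]; ring

theorem ph_neg (k : Z3) (y : E3) : ph (-k) y = -ph k y := by
  simp only [ph, vec_neg, inner_neg_left]; ring

theorem ph_eq (k : Z3) (y : E3) : ph k y = ∑ i, 2 * Real.pi * ((k i : ℝ) * y i) := by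
  simp only [ph, PiLp.inner_apply, vec_apply, Finset.mul_sum]
  refine Finset.sum_congr rfl (fun i _ => ?_)
  simp [mul_comm, mul_left_comm, mul_assoc]

theorem ph_cont (k : Z3) : Continuous (ph k) := by
  unfold ph; fun_prop

/-- the measurable equivalence with the product -/
noncomputable def me : E3 ≃ᵐ (Fin 3 → ℝ) := (MeasurableEquiv.toLp 2 (Fin 3 → ℝ)).symm

theorem me_apply (y : E3) : me y = fun i => y i := rfl

theorem me_vp : MeasurePreserving me volume volume :=
  EuclideanSpace.volume_preserving_symm_measurableEquiv_toLp (Fin 3)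

theorem cube_eq : cube = me ⁻¹' (Set.pi univ (fun _ => Ico (0 : ℝ) 1)) := by
  ext y
  constructor
  · intro h i _
    exact ⟨(h i).1, (h i).2⟩
  · intro h i
    exact ⟨(h i (mem_univ i)).1, (h i (mem_univ i)).2⟩

theorem cube_meas : MeasurableSet cube := by
  rw [cube_eq]
  exact me.measurable (MeasurableSet.univ_pi (fun _ => measurableSet_Ico))

/-- transfer to the product -/
theorem int_cube {G : Type} [NormedAddCommGroup G] [NormedSpace ℝ G] (f : (Fin 3 → ℝ) → G) :
    ∫ y in cube, f (me y) =
      ∫ x, f x ∂(Measure.pi (fun _ : Fin 3 => (volume : Measure ℝ).restrict (Ico 0 1))) := by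
  have h := me_vp.setIntegral_preimage_emb me.measurableEmbedding f
    (Set.pi univ (fun _ => Ico (0 : ℝ) 1))
  rw [← cube_eq] at h
  rw [h, ← Measure.restrict_pi_pi]
  rfl

theorem cube_fin : volume cube < ⊤ := by
  have h := me_vp.measure_preimage_equiv (Set.pi univ (fun _ => Ico (0 : ℝ) 1))
  rw [cube_eq, h, Real.volume_pi_Ico]
  simp

instance : IsFiniteMeasure ((volume : Measure E3).restrict cube) :=
  ⟨by rw [Measure.restrict_apply_univ]; exact cube_fin⟩

theorem int_one (k : ℤ) : ∫ x in Ico (0 : ℝ) 1, Complex.exp (2 * Real.pi * Complex.I * k * x)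
    = if k = 0 then 1 else 0 := by
  rw [integral_Ico_eq_integral_Ioo, ← integral_Ioc_eq_integral_Ioo,
    ← intervalIntegral.integral_of_le zero_le_one]
  split_ifs with hk
  · subst hk; simp
  · have hc : (2 * Real.pi * Complex.I * k : ℂ) ≠ 0 := by
      simp [hk, Real.pi_ne_zero]
    rw [integral_exp_mul_complex hc]
    have h1 : Complex.exp (2 * Real.pi * Complex.I * k * ((1 : ℝ) : ℂ)) = 1 := by
      rw [Complex.exp_eq_one_iff]
      exact ⟨k, by push_cast; ring⟩
    rw [h1]; simp

theorem int_exp (k : Z3) : ∫ y in cube, Complex.exp (Complex.I * ph k y)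
    = if k = 0 then 1 else 0 := by
  have h1 : ∀ y : E3, Complex.exp (Complex.I * ph k y) =
      (fun x : Fin 3 → ℝ => ∏ i, Complex.exp (2 * Real.pi * Complex.I * k i * x i)) (me y) := by
    intro y
    simp only [me_apply]
    rw [← Complex.exp_sum, ph_eq]
    congr 1
    push_cast
    rw [Finset.mul_sum]
    refine Finset.sum_congr rfl (fun i _ => ?_)
    ring
  rw [integral_congr_ae (Eventually.of_forall h1)]
  refine (int_cube (fun x : Fin 3 → ℝ =>
    ∏ i, Complex.exp (2 * Real.pi * Complex.I * k i * x i))).trans ?_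
  rw [MeasureTheory.integral_fintype_prod_eq_prod (𝕜 := ℂ)
    (f := fun i (x : ℝ) => Complex.exp (2 * Real.pi * Complex.I * k i * x))]
  simp_rw [int_one]
  by_cases hk : k = 0
  · subst hk; simp
  · rw [if_neg hk]
    obtain ⟨i, hi⟩ := Function.ne_iff.1 hk
    exact Finset.prod_eq_zero (Finset.mem_univ i) (by simpa using hi)

theorem int_of_cont {G : Type} [NormedAddCommGroup G] [NormedSpace ℝ G] {f : E3 → G}
    (hf : Continuous f) (hb : ∃ C, ∀ y, ‖f y‖ ≤ C) :
    Integrable f ((volume : Measure E3).restrict cube) := by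
  obtain ⟨C, hC⟩ := hb
  refine (integrable_const C).mono' hf.aestronglyMeasurable (Eventually.of_forall hC)

theorem int_cos (k : Z3) : ∫ y in cube, Real.cos (ph k y) = if k = 0 then 1 else 0 := by
  have h := int_exp k
  have h2 : ∫ y in cube, (Complex.exp (Complex.I * ph k y)).re
      = (∫ y in cube, Complex.exp (Complex.I * ph k y)).re := by
    have := @integral_re _ _ ((volume : Measure E3).restrict cube) ℂ _
      (fun y : E3 => Complex.exp (Complex.I * ph k y)) ?_
    · simpa using this
    · refine int_of_cont ?_ ⟨1, fun y => ?_⟩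
      · have := ph_cont k
        fun_prop
      · rw [mul_comm, Complex.norm_exp_ofReal_mul_I]
  have h3 : ∀ y : E3, (Complex.exp (Complex.I * ph k y)).re = Real.cos (ph k y) := by
    intro y; rw [mul_comm]; exact Complex.exp_ofReal_mul_I_re _
  simp_rw [h3] at h2
  rw [h2, h]
  split_ifs <;> simp

theorem iC (k : Z3) : Integrable (fun y => Real.cos (ph k y)) ((volume : Measure E3).restrict cube) :=
  int_of_cont (by have := ph_cont k; fun_prop) ⟨1, fun y => by
    rw [Real.norm_eq_abs]; exact Real.abs_cos_le_one _⟩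

theorem int_ss (k l : Z3) : ∫ y in cube, Real.sin (ph k y) * Real.sin (ph l y) =
    1 / 2 * ((if k = l then 1 else 0) - (if k = -l then 1 else 0)) := by
  have h : ∀ y : E3, Real.sin (ph k y) * Real.sin (ph l y) =
      1 / 2 * (Real.cos (ph (k - l) y) - Real.cos (ph (k + l) y)) := by
    intro y
    rw [ph_add, ph_sub, Real.cos_add, Real.cos_sub]; ring
  simp_rw [h]
  rw [integral_const_mul, integral_sub (iC _) (iC _), int_cos, int_cos]
  simp only [sub_eq_zero, add_eq_zero_iff_eq_neg]

theorem int_cc (k l : Z3) : ∫ y in cube, Real.cos (ph k y) * Real.cos (ph l y) =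
    1 / 2 * ((if k = l then 1 else 0) + (if k = -l then 1 else 0)) := by
  have h : ∀ y : E3, Real.cos (ph k y) * Real.cos (ph l y) =
      1 / 2 * (Real.cos (ph (k - l) y) + Real.cos (ph (k + l) y)) := by
    intro y
    rw [ph_add, ph_sub, Real.cos_add, Real.cos_sub]; ring
  simp_rw [h]
  rw [integral_const_mul, integral_add (iC _) (iC _), int_cos, int_cos]
  simp only [sub_eq_zero, add_eq_zero_iff_eq_neg]

theorem int_csr (q p r : Z3) : ∫ y in cube, Real.cos (ph q y) * Real.sin (ph p y) *
      Real.sin (ph r y) =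
    1 / 4 * ((if r = p - q then 1 else 0) + (if r = p + q then 1 else 0)
      - (if r = -(p - q) then 1 else 0) - (if r = -(p + q) then 1 else 0)) := by
  have h : ∀ y : E3, Real.cos (ph q y) * Real.sin (ph p y) * Real.sin (ph r y) =
      1 / 4 * ((Real.cos (ph (r - (p - q)) y) + Real.cos (ph (r - (p + q)) y))
        - Real.cos (ph (r + (p - q)) y) - Real.cos (ph (r + (p + q)) y)) := by
    intro y
    simp only [ph_add, ph_sub, Real.cos_add, Real.cos_sub, Real.sin_add, Real.sin_sub]
    ring
  simp_rw [h]
  rw [integral_const_mul, integral_sub, integral_sub, integral_add (iC _) (iC _), int_cos, int_cos,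
    int_cos, int_cos]
  · simp only [sub_eq_zero, add_eq_zero_iff_eq_neg]
  · exact (iC _).add (iC _)
  · exact iC _
  · exact ((iC _).add (iC _)).sub (iC _)
  · exact iC _

/-! ### Summability -/

end Pool.Agent.Y691.ND.F
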