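import Pool.Agent.Y691.ND.FLDB

/-! Trigonometric series on the unit cube. -/

open Set Filter Topology MeasureTheory

set_option autoImplicit false

namespace Pool.Agent.Y691.ND.F
open Pool.Agent.Y5 Pool.Agent.Y5.D

theorem int_tsum {G : Type} [NormedAddCommGroup G] [NormedSpace ℝ G]
    {f : Z3 → E3 → G} (hf : ∀ k, Continuous (f k)) {u : Z3 → ℝ} (hu : Summable u)
    (hb : ∀ k y, ‖f k y‖ ≤ u k) :
    ∫ y in cube, ∑' k, f k y = ∑' k, ∫ y in cube, f k y := by
  have hi : ∀ k, Integrable (f k) ((volume : Measure E3).restrict cube) :=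
    fun k => int_of_cont (hf k) ⟨u k, hb k⟩
  refine (integral_tsum_of_summable_integral_norm hi ?_).symm
  refine Summable.of_nonneg_of_le (fun k => by positivity) (fun k => ?_)
    (hu.mul_right (((volume : Measure E3).restrict cube).real univ))
  calc ∫ y in cube, ‖f k y‖ ≤ ∫ y in cube, u k :=
        integral_mono (hi k).norm (integrable_const _) (hb k)
    _ = u k * ((volume : Measure E3).restrict cube).real univ := by
        rw [integral_const, smul_eq_mul, mul_comm]

/-- the series with the trigonometric function `g` -/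
noncomputable def ser (g : ℝ → ℝ) (V : Fam) (y : E3) : E3 := ∑' k, g (ph k y) • V k

theorem fieldOf_eq (V : Fam) : fieldOf V = ser Real.sin V := rfl

variable {g : ℝ → ℝ} {V W : Fam}

theorem ser_summable (hb : ∀ x, |g x| ≤ 1) (hV : Summable (fun k => ‖V k‖)) (y : E3) :
    Summable (fun k => g (ph k y) • V k) := by
  refine Summable.of_norm_bounded hV (fun k => ?_)
  rw [norm_smul, Real.norm_eq_abs]
  exact mul_le_of_le_one_left (norm_nonneg _) (hb _)

theorem ser_cont (hg : Continuous g) (hb : ∀ x, |g x| ≤ 1) (hV : Summable (fun k => ‖V k‖)) :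
    Continuous (ser g V) := by
  refine continuous_tsum (fun k => ?_) hV (fun k y => ?_)
  · exact (hg.comp (ph_cont k)).smul continuous_const
  · rw [norm_smul, Real.norm_eq_abs]
    exact mul_le_of_le_one_left (norm_nonneg _) (hb _)

theorem ser_bdd (hb : ∀ x, |g x| ≤ 1) (hV : Summable (fun k => ‖V k‖)) (y : E3) :
    ‖ser g V y‖ ≤ ∑' k, ‖V k‖ := by
  refine tsum_of_norm_bounded hV.hasSum (fun k => ?_)
  rw [norm_smul, Real.norm_eq_abs]
  exact mul_le_of_le_one_left (norm_nonneg _) (hb _)

theorem int_pair (hg : Continuous g) (hb : ∀ x, |g x| ≤ 1) (hV : Summable (fun k => ‖V k‖))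
    {G : E3 → E3} (hG : Continuous G) {C : ℝ} (hC : ∀ y, ‖G y‖ ≤ C) :
    ∫ y in cube, inner ℝ (ser g V y) (G y) =
      ∑' k, inner ℝ (V k) (∫ y in cube, g (ph k y) • G y) := by
  have h1 : ∀ y, inner ℝ (ser g V y) (G y) = ∑' k, inner ℝ (V k) (g (ph k y) • G y) := by
    intro y
    have h := (ser_summable hb hV y).hasSum
    have h2 := h.mapL (innerSL ℝ (G y))
    have h3 := h2.tsum_eq
    simp only [innerSL_apply_apply] at h3
    rw [real_inner_comm]
    unfold ser
    rw [← h3]
    refine tsum_congr (fun k => ?_)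
    rw [inner_smul_right, inner_smul_right, real_inner_comm]
  rw [integral_congr_ae (Eventually.of_forall h1), int_tsum (u := fun k => ‖V k‖ * C)]
  · refine tsum_congr (fun k => ?_)
    rw [integral_inner]
    refine int_of_cont (((hg.comp (ph_cont k))).smul hG) ⟨C, fun y => ?_⟩
    rw [norm_smul, Real.norm_eq_abs]
    exact (mul_le_of_le_one_left (norm_nonneg _) (hb _)).trans (hC y)
  · intro k
    exact continuous_const.inner ((hg.comp (ph_cont k)).smul hG)
  · exact hV.mul_right C
  · intro k y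
    refine (norm_inner_le_norm _ _).trans ?_
    refine mul_le_mul_of_nonneg_left ?_ (norm_nonneg _)
    rw [norm_smul, Real.norm_eq_abs]
    exact (mul_le_of_le_one_left (norm_nonneg _) (hb _)).trans (hC y)

/-- `∫ c · ser = ∑ (∫ c g_l) W_l` -/
theorem int_coef (hg : Continuous g) (hb : ∀ x, |g x| ≤ 1) (hW : Summable (fun k => ‖W k‖))
    {c : E3 → ℝ} (hc : Continuous c) (hc1 : ∀ y, |c y| ≤ 1) :
    ∫ y in cube, c y • ser g W y = ∑' l, (∫ y in cube, c y * g (ph l y)) • W l := by
  have h1 : ∀ y, c y • ser g W y = ∑' l, (c y * g (ph l y)) • W l := by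
    intro y
    unfold ser
    rw [← (ser_summable hb hW y).tsum_const_smul]
    refine tsum_congr (fun l => ?_)
    rw [smul_smul]
  rw [integral_congr_ae (Eventually.of_forall h1)]
  rw [int_tsum (u := fun l => ‖W l‖) (fun l => ?_) hW (fun l y => ?_)]
  · refine tsum_congr (fun l => ?_)
    rw [integral_smul_const]
  · exact (hc.mul (hg.comp (ph_cont l))).smul continuous_const
  · rw [norm_smul, Real.norm_eq_abs, abs_mul]
    refine mul_le_of_le_one_left (norm_nonneg _) ?_
    exact mul_le_one₀ (hc1 y) (abs_nonneg _) (hb _)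

theorem hs_congr {f f' : Z3 → E3} {a : E3} (h : HasSum f a) (e : ∀ i, f' i = f i) :
    HasSum f' a := by
  rw [funext e]; exact h

theorem hD (W : Fam) (a : Z3) : HasSum (fun l => (if l = a then (1 : ℝ) else 0) • W l) (W a) := by
  have h := hasSum_ite_eq a (W a)
  refine hs_congr h (fun l => ?_)
  split_ifs with hl
  · subst hl; simp
  · simp

theorem coef_sin (hW : Summable (fun k => ‖W k‖)) (ho : ∀ k, W (-k) = -W k) (k : Z3) :
    ∫ y in cube, Real.sin (ph k y) • ser Real.sin W y = W k := by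
  refine (int_coef (c := fun y => Real.sin (ph k y)) Real.continuous_sin Real.abs_sin_le_one hW
    (Real.continuous_sin.comp (ph_cont k)) (fun y => Real.abs_sin_le_one _)).trans ?_
  simp_rw [int_ss]
  have h := ((hD W k).sub (hD W (-k))).const_smul (1 / 2 : ℝ)
  refine HasSum.tsum_eq ?_
  have e : (1 / 2 : ℝ) • (W k - W (-k)) = W k := by
    rw [ho, sub_neg_eq_add, ← two_smul ℝ, smul_smul]; norm_num
  rw [e] at h
  refine hs_congr h (fun l => ?_)
  rw [← sub_smul, smul_smul]
  congr 3
  · simp only [eq_comm]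
  · congr 1
    exact propext ⟨fun h => by rw [h, neg_neg], fun h => by rw [h, neg_neg]⟩

theorem coef_cos (hW : Summable (fun k => ‖W k‖)) (ho : ∀ k, W (-k) = W k) (k : Z3) :
    ∫ y in cube, Real.cos (ph k y) • ser Real.cos W y = W k := by
  refine (int_coef (c := fun y => Real.cos (ph k y)) Real.continuous_cos Real.abs_cos_le_one hW
    (Real.continuous_cos.comp (ph_cont k)) (fun y => Real.abs_cos_le_one _)).trans ?_
  simp_rw [int_cc]
  have h := ((hD W k).add (hD W (-k))).const_smul (1 / 2 : ℝ)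
  refine HasSum.tsum_eq ?_
  have e : (1 / 2 : ℝ) • (W k + W (-k)) = W k := by
    rw [ho, ← two_smul ℝ, smul_smul]; norm_num
  rw [e] at h
  refine hs_congr h (fun l => ?_)
  rw [← add_smul, smul_smul]
  congr 3
  · simp only [eq_comm]
  · congr 1
    exact propext ⟨fun h => by rw [h, neg_neg], fun h => by rw [h, neg_neg]⟩

theorem coef_cs (hW : Summable (fun k => ‖W k‖)) (ho : ∀ k, W (-k) = -W k) (q p : Z3) :
    ∫ y in cube, (Real.cos (ph q y) * Real.sin (ph p y)) • ser Real.sin W y =
      (1 / 2 : ℝ) • (W (p - q) + W (p + q)) := by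
  have h1 : ∀ y, |Real.cos (ph q y) * Real.sin (ph p y)| ≤ 1 := by
    intro y
    rw [abs_mul]
    exact mul_le_one₀ (Real.abs_cos_le_one _) (abs_nonneg _) (Real.abs_sin_le_one _)
  refine (int_coef (c := fun y => Real.cos (ph q y) * Real.sin (ph p y)) Real.continuous_sin
    Real.abs_sin_le_one hW ((Real.continuous_cos.comp (ph_cont q)).mul
    (Real.continuous_sin.comp (ph_cont p))) h1).trans ?_
  simp_rw [int_csr]
  have h := ((((hD W (p - q)).add (hD W (p + q))).sub (hD W (-(p - q)))).sub
    (hD W (-(p + q)))).const_smul (1 / 4 : ℝ)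
  refine HasSum.tsum_eq ?_
  have e : (1 / 4 : ℝ) • (W (p - q) + W (p + q) - W (-(p - q)) - W (-(p + q))) =
      (1 / 2 : ℝ) • (W (p - q) + W (p + q)) := by
    rw [ho, ho]; module
  rw [e] at h
  refine hs_congr h (fun l => ?_)
  rw [← add_smul, ← sub_smul, ← sub_smul, smul_smul]

/-- derivative of the sine series -/
theorem ser_fderiv (hV0 : Summable (fun k => ‖V k‖)) (hV1 : Summable (fun k => ‖vec k‖ * ‖V k‖))
    (y u : E3) : fderiv ℝ (ser Real.sin V) y u =
      ∑' k, (Real.cos (ph k y) * (2 * Real.pi * inner ℝ (vec k) u)) • V k := by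
  have hu : Summable (fun k => 2 * Real.pi * (‖vec k‖ * ‖V k‖)) := hV1.mul_left _
  have hf : ∀ (k : Z3) (x : E3), HasFDerivAt (fun y => Real.sin (ph k y) • V k)
      ((Real.cos (ph k x) • ((2 * Real.pi) • innerSL ℝ (vec k))).smulRight (V k)) x := by
    intro k x
    have h1 : HasFDerivAt (fun y => ph k y) ((2 * Real.pi) • innerSL ℝ (vec k)) x := by
      have := (innerSL ℝ (vec k)).hasFDerivAt (x := x)
      exact this.const_mul (2 * Real.pi)
    exact (h1.sin).smul_const (V k)
  have hf' : ∀ (k : Z3) (x : E3),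
      ‖(Real.cos (ph k x) • ((2 * Real.pi) • innerSL ℝ (vec k))).smulRight (V k)‖
        ≤ 2 * Real.pi * (‖vec k‖ * ‖V k‖) := by
    intro k x
    rw [ContinuousLinearMap.norm_smulRight_apply, norm_smul, norm_smul, innerSL_apply_norm,
      Real.norm_eq_abs, Real.norm_eq_abs, abs_of_pos Real.two_pi_pos]
    have := Real.abs_cos_le_one (ph k x)
    calc |Real.cos (ph k x)| * (2 * Real.pi * ‖vec k‖) * ‖V k‖
        ≤ 1 * (2 * Real.pi * ‖vec k‖) * ‖V k‖ := by gcongr
      _ = _ := by ring
  have h := hasFDerivAt_tsum hu hf hf' (ser_summable Real.abs_sin_le_one hV0 0) y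
  have h2 : fderiv ℝ (ser Real.sin V) y = ∑' k,
      (Real.cos (ph k y) • ((2 * Real.pi) • innerSL ℝ (vec k))).smulRight (V k) := h.fderiv
  rw [h2]
  have hs : Summable (fun k =>
      (Real.cos (ph k y) • ((2 * Real.pi) • innerSL ℝ (vec k))).smulRight (V k)) :=
    Summable.of_norm_bounded hu (fun k => hf' k y)
  have h3 := (hs.hasSum.mapL (ContinuousLinearMap.apply ℝ E3 u)).tsum_eq
  simp only [ContinuousLinearMap.apply_apply] at h3
  rw [← h3]
  refine tsum_congr (fun k => ?_)
  simp only [ContinuousLinearMap.smulRight_apply, _root_.smul_apply,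
    innerSL_apply_apply, smul_eq_mul]

end Pool.Agent.Y691.ND.F
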